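import Pool.Agent.ASD.Stmts4
import Pool.Agent.Helper3_ASO.MUL
import Pool.Agent.Helper62_AT3.CO2
import Pool.Agent.Helper20_PP.Rst
import Pool.Agent.Helper3_K9.Psi

/-!
# Squad ASD, row PCH: the dictionary for a pair
-/

open scoped BigOperators

set_option autoImplicit false

noncomputable section

namespace Pool.Agent.PP.SD.H65

open Pool.Agent.Helper51_AWC Pool.Agent.Helper79_WRA Pool.Agent.PP Pool.Agent.PP.KF
open Pool.Agent.PP.K9 Pool.Agent.PP.K9.H97 Pool.Agent.PP.H75 Pool.Agent.PP.T3 Pool.Agent.PP.SO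

attribute [local instance] Ideal.Quotient.field

section gen

variable {F V₀ G H : Type} [CommGroup V₀] [Group G] [Group H]

theorem memC (B : Bk F V₀ G) (W : Subgroup V₀) (x : G) :
    x ∈ B.C W ↔ ∀ v ∈ W, B.i v * x = x * B.i v := by
  unfold Bk.C
  rw [Subgroup.mem_centralizer_iff]
  constructor
  · intro h v hv
    exact h _ ⟨v, hv, rfl⟩
  · rintro h _ ⟨v, hv, rfl⟩
    exact h v hv

variable {A : Subgroup V₀} {B : Bk F V₀ G} {B' : Bk F V₀ H} {j : H →* G}

theorem mem_iff (hP : Pr A B B' j) (W : Subgroup V₀) (h : H) : j h ∈ B.C W ↔ h ∈ B'.C W := by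
  rw [memC, memC]
  constructor
  · intro hh v hv
    apply hP.inj
    rw [map_mul, map_mul, hP.i]
    exact hh v hv
  · intro hh v hv
    rw [← hP.i, ← map_mul, ← map_mul, hh v hv]

theorem sur (hP : Pr A B B' j) {W : Subgroup V₀} (hW : A ≤ W) {x : G} (hx : x ∈ B.C W) :
    ∃ h, j h = x :=
  hP.cen x (SO.H3.C_anti B hW hx)

/-- the isomorphism of the centralisers -/
def ph (hP : Pr A B B' j) {W : Subgroup V₀} (hW : A ≤ W) : B'.C W ≃* B.C W :=
  MulEquiv.ofBijective
    ({ toFun := fun t => ⟨j (t : H), (mem_iff hP W (t : H)).2 t.2⟩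
       map_one' := Subtype.ext (map_one j)
       map_mul' := fun a b => Subtype.ext (map_mul j (a : H) (b : H)) } : B'.C W →* B.C W)
    ⟨fun a b hab => Subtype.ext (hP.inj (congrArg Subtype.val hab)), fun y => by
      obtain ⟨h, hh⟩ := sur hP hW y.2
      refine ⟨⟨h, (mem_iff hP W h).1 (by rw [hh]; exact y.2)⟩, Subtype.ext hh⟩⟩

theorem ph_coe (hP : Pr A B B' j) {W : Subgroup V₀} (hW : A ≤ W) (t : B'.C W) :
    ((ph hP hW t : B.C W) : G) = j t := rfl

theorem ph_symm (hP : Pr A B B' j) {W : Subgroup V₀} (hW : A ≤ W) (y : B.C W) :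
    j ((ph hP hW).symm y : B'.C W) = y := by
  rw [← ph_coe hP hW, MulEquiv.apply_symm_apply]

end gen

section blk

variable {V₀ G H : Type} [CommGroup V₀] [Group G] [Finite G] [Group H] [Finite H] {ℓ : ℕ}
  {M : Ideal (integralClosure ℤ ℂ)} [M.IsMaximal] {E₀ : Subgroup (MulAut V₀)}
  {A : Subgroup V₀} {B : Bk (FF M) V₀ G} {B' : Bk (FF M) V₀ H} {j : H →* G}

omit [Finite G] [Finite H] [M.IsMaximal] in
theorem b_symm (hP : Pr A B B' j) {W : Subgroup V₀} (hW : A ≤ W) :
    (fun y : B.C W => B'.b W ((ph hP hW).symm y : B'.C W)) = fun y : B.C W => B.b W y := by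
  funext y
  rw [hP.b W hW, ph_symm]

theorem bh_eq (hB' : Sb ℓ M E₀ B') (hP : Pr A B B' j) {W : Subgroup V₀} (hW : A ≤ W) (h : H) :
    bh B' W h = bh B W (j h) := by
  by_cases hh : h ∈ B'.C W
  · have hj : j h ∈ B.C W := (mem_iff hP W h).2 hh
    unfold bh PP.ext0
    rw [dif_pos hh, dif_pos hj]
    have hcl : IsCl (fun t : B'.C W => B'.b W t) := (hB'.lb W).blk.blk.1.1
    have h1 : eh M (fun y : B.C W => B.b W y) (ph hP hW ⟨h, hh⟩) =
        eh M (fun t : B'.C W => B'.b W t) ⟨h, hh⟩ := by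
      rw [← b_symm hP hW]
      exact T3.H62.eh_equiv (M := M) (ph hP hW) hcl ⟨h, hh⟩
    exact h1.symm
  · rw [SO.H3.bh_supp B' W hh, SO.H3.bh_supp B W (fun h1 => hh ((mem_iff hP W h).1 h1))]

theorem fc_eq (hB' : Sb ℓ M E₀ B') (hP : Pr A B B' j) {W : Subgroup V₀} (hW : A ≤ W) (x : V₀)
    (h : H) : fc B' W x h = fc B W x (j h) := by
  have hWx : A ≤ W ⊔ Subgroup.zpowers x := hW.trans le_sup_left
  unfold fc
  rw [Nat.card_congr (ph hP hWx).toEquiv]
  congr 1
  rw [← finsum_comp_equiv (ph hP hW).toEquiv]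
  apply finsum_congr
  intro z
  rw [bh_eq hB' hP hWx]
  congr 1
  rw [map_mul, map_mul, map_mul, map_inv, map_inv, hP.i]
  rfl

theorem irrE_eq (hB' : Sb ℓ M E₀ B') (hP : Pr A B B' j) {W : Subgroup V₀} (hW : A ≤ W)
    (θ : B.C W → ℂ) : θ ∈ IrrE M (fun t : B.C W => B.b W t) ↔
      (fun t : B'.C W => θ (ph hP hW t)) ∈ IrrE M (fun t : B'.C W => B'.b W t) := by
  classical
  have hcl : IsCl (fun t : B'.C W => B'.b W t) := (hB'.lb W).blk.blk.1.1
  have hpush : H75.push (ph hP hW).toMonoidHom (fun t : B'.C W => B'.b W t) =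
      fun y : B.C W => B.b W y := by
    rw [← b_symm hP hW]
    funext y
    unfold H75.push
    rw [finsum_eq_single _ ((ph hP hW).symm y)]
    · rw [finsum_eq_if, if_pos (show (ph hP hW).toMonoidHom ((ph hP hW).symm y) = y from
        (ph hP hW).apply_symm_apply y)]
    · intro x hx
      rw [finsum_eq_if, if_neg]
      intro h
      apply hx
      rw [← h]
      exact ((ph hP hW).symm_apply_apply x).symm
  have h1 := (K9.H3.psi M (B'.C W) (B.C W) (ph hP hW).toMonoidHom (ph hP hW).surjective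
    (fun t : B'.C W => B'.b W t) hcl).1
  rw [hpush] at h1
  constructor
  · intro hθ
    rw [h1] at hθ
    exact hθ.2
  · intro hθ
    rw [h1]
    refine ⟨?_, hθ⟩
    have h2 := K9.H3.irr_infl (p := (ph hP hW).symm.toMonoidHom) (ph hP hW).symm.surjective hθ.1
    have e1 : (fun y : B.C W => θ (ph hP hW ((ph hP hW).symm.toMonoidHom y))) = θ := by
      funext y
      change θ (ph hP hW ((ph hP hW).symm y)) = θ y
      rw [(ph hP hW).apply_symm_apply]
    have h3 : (fun y : B.C W => θ (ph hP hW ((ph hP hW).symm.toMonoidHom y))) ∈ Irr (B.C W) := h2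
    rw [e1] at h3
    exact h3

theorem bij (hB' : Sb ℓ M E₀ B') (hP : Pr A B B' j) {W : Subgroup V₀} (hW : A ≤ W) :
    Set.BijOn (fun (χ : G → ℂ) (h : H) => χ (j h)) (Ch B W) (Ch B' W) := by
  classical
  refine ⟨?_, ?_, ?_⟩
  · rintro χ ⟨h1, h2⟩
    refine ⟨fun h hh => h1 _ (fun h3 => hh ((mem_iff hP W h).1 h3)), ?_⟩
    exact (irrE_eq hB' hP hW (fun t : B.C W => χ t)).1 h2
  · rintro χ ⟨h1, _⟩ χ' ⟨h1', _⟩ he
    funext g
    by_cases hg : g ∈ B.C W
    · obtain ⟨h, rfl⟩ := sur hP hW hg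
      exact congrFun he h
    · rw [h1 g hg, h1' g hg]
  · rintro κ ⟨h1, h2⟩
    refine ⟨fun g => if hg : g ∈ B.C W then κ ((ph hP hW).symm ⟨g, hg⟩ : B'.C W) else 0,
      ⟨fun g hg => dif_neg hg, ?_⟩, ?_⟩
    · rw [irrE_eq hB' hP hW]
      have e : (fun t : B'.C W => (fun t : B.C W => (fun g => if hg : g ∈ B.C W then
          κ ((ph hP hW).symm ⟨g, hg⟩ : B'.C W) else 0) (t : G)) (ph hP hW t)) =
          fun t : B'.C W => κ t := by
        funext t
        change (if hg : ((ph hP hW t : B.C W) : G) ∈ B.C W then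
          κ ((ph hP hW).symm ⟨((ph hP hW t : B.C W) : G), hg⟩ : B'.C W) else 0) = κ t
        rw [dif_pos (ph hP hW t).2]
        have : (⟨((ph hP hW t : B.C W) : G), (ph hP hW t).2⟩ : B.C W) = ph hP hW t := rfl
        rw [this, (ph hP hW).symm_apply_apply]
      rw [e]
      exact h2
    · funext h
      change (if hg : j h ∈ B.C W then κ ((ph hP hW).symm ⟨j h, hg⟩ : B'.C W) else 0) = κ h
      by_cases hh : h ∈ B'.C W
      · have hj : j h ∈ B.C W := (mem_iff hP W h).2 hh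
        rw [dif_pos hj]
        have : (⟨j h, hj⟩ : B.C W) = ph hP hW ⟨h, hh⟩ := rfl
        rw [this, (ph hP hW).symm_apply_apply]
      · rw [dif_neg (fun h3 => hh ((mem_iff hP W h).1 h3)), h1 h hh]

theorem cv_eq (hB' : Sb ℓ M E₀ B') (hP : Pr A B B' j) {W : Subgroup V₀} (hW : A ≤ W) (x : V₀)
    (χ : G → ℂ) (hχ : ∀ g, g ∉ B.C W → χ g = 0) :
    cv (fc B' W x) (fun h => χ (j h)) = cv (fc B W x) χ := by
  unfold cv
  change (∑ᶠ h, fc B' W x h * χ (j h)) / χ (j 1) = (∑ᶠ g, fc B W x g * χ g) / χ 1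
  rw [map_one]
  congr 1
  have h1 : ∑ᶠ g, fc B W x g * χ g = ∑ᶠ g ∈ Set.range j, fc B W x g * χ g := by
    rw [← finsum_mem_univ]
    apply finsum_mem_inter_support_eq'
    intro g hg
    rw [Function.mem_support] at hg
    refine ⟨fun _ => ?_, fun _ => Set.mem_univ g⟩
    by_contra h2
    apply hg
    rw [hχ g, mul_zero]
    intro h3
    obtain ⟨h, hh⟩ := sur hP hW h3
    exact h2 ⟨h, hh⟩
  rw [h1, finsum_mem_range hP.inj]
  apply finsum_congr
  intro h
  rw [fc_eq hB' hP hW]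

omit [Finite G] [Finite H] in
theorem ln_eq (hP : Pr A B B' j) {W : Subgroup V₀} (hW : A ≤ W) :
    ln (fun t : B'.C W => B'.b W t) = ln (fun t : B.C W => B.b W t) := by
  symm
  unfold ln
  have hact : ∀ f : B.C W → FF M, ∀ t : B'.C W,
      actF (fun t : B'.C W => B'.b W t) (fun t : B'.C W => f (ph hP hW t)) t =
      actF (fun t : B.C W => B.b W t) f (ph hP hW t) := by
    intro f t
    unfold actF
    rw [← finsum_comp_equiv (ph hP hW).toEquiv]
    apply finsum_congr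
    intro s
    change B'.b W s * f (ph hP hW (s * t)) = B.b W (ph hP hW s : B.C W) * f (ph hP hW s * ph hP hW t)
    rw [hP.b W hW, map_mul, ph_coe]
  refine Set.ncard_congr (fun f _ => fun t : B'.C W => f (ph hP hW t)) ?_ ?_ ?_
  · rintro f ⟨h1, h2⟩
    refine ⟨(H20.IBr_equiv (ph hP hW)).2 h1, ?_⟩
    funext t
    rw [hact, h2]
  · intro f f' _ _ he
    funext y
    have h1 := congrFun he ((ph hP hW).symm y)
    simp only [MulEquiv.apply_symm_apply] at h1
    exact h1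
  · rintro f ⟨h1, h2⟩
    have e : (fun t : B'.C W => (fun y : B.C W => f ((ph hP hW).symm y)) (ph hP hW t)) = f := by
      funext t
      change f ((ph hP hW).symm (ph hP hW t)) = f t
      rw [(ph hP hW).symm_apply_apply]
    refine ⟨fun y => f ((ph hP hW).symm y), ⟨?_, ?_⟩, e⟩
    · rw [← H20.IBr_equiv (ph hP hW), e]
      exact h1
    · funext y
      have h3 := hact (fun y : B.C W => f ((ph hP hW).symm y)) ((ph hP hW).symm y)
      rw [e, h2, (ph hP hW).apply_symm_apply] at h3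
      exact h3.symm

end blk

theorem pch : PchStmt := by
  intro ℓ _ M _ hM V₀ G H _ _ _ _ _ _ E₀ A B B' j hB hB' hP W hW
  refine ⟨Nat.card_congr (ph hP hW).toEquiv, mem_iff hP W, fun x hx => sur hP hW hx,
    bh_eq hB' hP hW, fc_eq hB' hP hW, bij hB' hP hW, fun x χ hχ => cv_eq hB' hP hW x χ hχ.1,
    ln_eq hP hW⟩

end Pool.Agent.PP.SD.H65
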