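import Pool.Agent.ASD.Stmts5
import Pool.Agent.Helper48_ASO.PEX

/-!
# Squad ASD, row PEM: a common number `m`
-/

open scoped BigOperators

set_option autoImplicit false

noncomputable section

namespace Pool.Agent.PP.SD.H65

open Pool.Agent.Helper51_AWC Pool.Agent.Helper79_WRA Pool.Agent.PP Pool.Agent.PP.KF
open Pool.Agent.PP.K9 Pool.Agent.PP.K9.H97 Pool.Agent.PP.H75 Pool.Agent.PP.T3 Pool.Agent.PP.SO

theorem pem_of (pex : SO.PexStmt) : PemStmt := by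
  intro ℓ _ n G H _ _ _ _
  refine ⟨?_, ?_, ?_⟩
  · rintro ⟨m₁, h₁⟩ ⟨m₂, h₂⟩
    obtain ⟨r, m, hr, hm⟩ := pex ℓ (G × H)
    refine ⟨m, h₁.pw, hm.md, ?_, hm.rg⟩
    rintro ⟨g, h⟩ hgh
    refine ⟨(hm.el _ hgh).1, ?_⟩
    obtain ⟨k, hk⟩ := hgh
    have hg : El ℓ g := ⟨k, congrArg Prod.fst hk⟩
    have hh : El ℓ h := ⟨k, congrArg Prod.snd hk⟩
    exact Prod.ext (h₁.el g hg).2 (h₂.el h hh).2
  · intro j hj m hm
    refine ⟨hm.pw, hm.md, ?_, ?_⟩
    · rintro h ⟨k, hk⟩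
      have h1 : El ℓ (j h) := ⟨k, by rw [← map_pow, hk, map_one]⟩
      obtain ⟨h2, h3⟩ := hm.el _ h1
      constructor
      · apply hj
        rw [map_pow, h2]
      · apply hj
        rw [map_pow, h3, map_one]
    · intro h hh
      have h1 : Reg ℓ (j h) := by
        unfold Reg at hh ⊢
        rw [orderOf_injective j hj h]
        exact hh
      apply hj
      rw [map_pow, hm.rg _ h1, map_one]
  · rintro r r' hr hrr ⟨m, hm⟩
    refine ⟨m, ⟨r', hr.trans_le hrr, rfl⟩, hm.md, ?_, hm.rg⟩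
    intro g hg
    obtain ⟨h1, h2⟩ := hm.el g hg
    refine ⟨h1, ?_⟩
    obtain ⟨k, rfl⟩ := Nat.exists_eq_add_of_le hrr
    rw [pow_add, pow_mul, h2, one_pow]

theorem pem : PemStmt := pem_of SO.H48.pex

end Pool.Agent.PP.SD.H65
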